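import Pool.Agent.H970.RG.Defs


/-!
# RG970-4 (helper970): iteration of the renormalisation step, `S_zero → S_mom → S_main`
-/

set_option autoImplicit false

noncomputable section

namespace Pool.Agent.H100.RG

open MvPolynomial Pool.Agent.H5R2.ON Pool.Agent.H717R2.ON3 Pool.Agent.H983R2.ONJ
open Pool.Agent.Y13.QM Pool.Agent.H970.RG

/-- one step of the recursion of the bounds -/
theorem rec_step {C δ B M c : ℝ} (hC : 0 < C) (hδ : 0 < δ) (hB : 0 ≤ B)
    (hc : c = δ / (1 + C * δ)) (hM : B ≤ max δ M) :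
    C * B ^ 2 / (1 + C * B) ≤ max δ (M - c) := by
  have h1 : 0 < 1 + C * B := by positivity
  have h2 : 0 < 1 + C * δ := by positivity
  have e : C * B ^ 2 / (1 + C * B) = B - B / (1 + C * B) := by
    field_simp
    ring
  rcases le_or_gt B δ with h | h
  · refine le_max_of_le_left ?_
    rw [e]
    have : 0 ≤ B / (1 + C * B) := by positivity
    linarith
  · have h3 : c ≤ B / (1 + C * B) := by
      rw [hc, div_le_div_iff₀ h2 h1]
      nlinarith
    rw [e]
    rcases le_max_iff.1 hM with h4 | h4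
    · exact absurd h (not_lt.2 h4)
    · refine le_max_of_le_right ?_
      linarith

theorem rec_nonneg {C B : ℝ} (hC : 0 < C) (hB : 0 ≤ B) : 0 ≤ C * B ^ 2 / (1 + C * B) := by
  positivity

/-- the levels of the renormalisation -/
theorem levels {C0 C1 δ c K R ρ β : ℝ} (hC0 : 0 < C0) (hC1 : 0 < C1) (hδ : 0 < δ)
    (hc : c = δ / (1 + C1 * δ)) (hK : 0 ≤ K) (hρ : 1 ≤ ρ)
    {L : ℕ} [NeZero L] (hL : 2 * R < L) {ι : Type} [Fintype ι] {G : Gr (Tor L) ι}
    {Λ : Finset (Tor L)} (W : WFun G β Λ)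
    (h0 : Good W (fun y g => S1 G β y g) (fun y g => D y g) ρ ρ (C0 * K))
    (h1 : ∀ (J : Tor L → Fin 3 → Alg (Tor L))
      (b : Tor L → Fin 3 → Derivation ℝ (Alg (Tor L)) (Alg (Tor L))) (ρ l B r : ℝ),
      Good W J b ρ l B → 0 ≤ ρ → 2 * ρ ≤ r → l ≤ r → 1 ≤ r → 0 ≤ B → 2 * r < L →
      Good W (nJ J (1 / (1 + C1 * B)) (psi 4 r)) (nb J b (1 / (1 + C1 * B)) (psi 4 r)) (7 * r)
        (20 * r) (C1 * B ^ 2 / (1 + C1 * B))) (n : ℕ) :
    20 ^ n * (2 * ρ) ≤ R → ∃ (J : Tor L → Fin 3 → Alg (Tor L))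
      (b : Tor L → Fin 3 → Derivation ℝ (Alg (Tor L)) (Alg (Tor L))) (ρ' l' B' : ℝ),
      Good W J b ρ' l' B' ∧ 0 ≤ ρ' ∧ 2 * ρ' ≤ 20 ^ n * (2 * ρ) ∧ l' ≤ 20 ^ n * (2 * ρ) ∧
        0 ≤ B' ∧ B' ≤ max δ (C0 * K - n * c) := by
  induction n with
  | zero =>
    intro _
    refine ⟨_, _, ρ, ρ, C0 * K, h0, by linarith, ?_, ?_, by positivity, ?_⟩
    · rw [pow_zero, one_mul]
    · rw [pow_zero, one_mul]
      linarith
    · rw [Nat.cast_zero, zero_mul, sub_zero]
      exact le_max_right _ _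
  | succ n ih =>
    intro hR
    have hp : (1 : ℝ) ≤ 20 ^ n := one_le_pow₀ (by norm_num)
    have hr : 1 ≤ 20 ^ n * (2 * ρ) := by nlinarith
    have hr2 : 20 ^ (n + 1) * (2 * ρ) = 20 * (20 ^ n * (2 * ρ)) := by ring
    rw [hr2] at hR
    obtain ⟨J, b, ρ', l', B', hG, h2, h3, h4, h5, h6⟩ := ih (by linarith)
    refine ⟨_, _, _, _, _, h1 J b ρ' l' B' _ hG h2 h3 h4 hr h5 (by linarith), ?_, ?_, ?_,
      rec_nonneg hC1 h5, ?_⟩
    · linarith
    · rw [hr2]
      linarith
    · rw [hr2]
    · have h7 := rec_step hC1 hδ h5 hc h6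
      have e : C0 * K - ((n + 1 : ℕ) : ℝ) * c = C0 * K - n * c - c := by
        push_cast
        ring
      rw [e]
      exact h7

theorem eval_JS {V : Type} [Fintype V] [DecidableEq V] (J : V → Fin 3 → Alg V) (f : V → ℝ)
    (g : Fin 3) (σ : V × Fin 3 → ℝ) : eval σ (JS J f g) = ∑ y, f y * eval σ (J y g) := by
  unfold JS
  rw [map_sum]
  refine Finset.sum_congr rfl fun y _ => ?_
  rw [smul_eval]

theorem eval_sup {V : Type} {A : Set V} {F : Alg V} (hF : Sup A F) {σ σ' : V × Fin 3 → ℝ}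
    (h : ∀ x ∈ A, ∀ g, σ (x, g) = σ' (x, g)) : eval σ F = eval σ' F := by
  unfold Sup at hF
  rw [mem_supported] at hF
  refine eval₂Hom_congr' rfl ?_ rfl
  intro i hi _
  exact h i.1 (hF hi) i.2

/-- a level with a small radius gives the main bound -/
theorem main_level {ε δ R β ρ' l' B' : ℝ} (hδ : δ = ε / 4) (hR : 0 < R) {L : ℕ} [NeZero L]
    {ι : Type} [Fintype ι] {G : Gr (Tor L) ι} (p : Tor L) (W : WFun G β (ball p R))
    {J : Tor L → Fin 3 → Alg (Tor L)}
    {b : Tor L → Fin 3 → Derivation ℝ (Alg (Tor L)) (Alg (Tor L))}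
    (hG : Good W J b ρ' l' B') (hρ : ρ' ≤ R / 100) (hl : l' ≤ R / 2)
    (hB : B' ≤ δ) : ∃ U : Alg (Tor L),
    W.E (U ^ 2) ≤ ε ∧ W.E (X (p, 0)) = W.E (U * X (p, 1)) ∧
    ∀ σ σ' : Tor L × Fin 3 → ℝ,
      (∀ x, R / 8 ≤ tnorm (x - p) → ∀ g, σ (x, g) = σ' (x, g)) →
        eval σ U = eval σ' U := by
  refine ⟨JS J (fR R p) 2, ?_, ?_, ?_⟩
  · have h := hG.mom (R / 2) hl p (fun x hx => by
      unfold ball
      rw [Finset.mem_filter]
      exact ⟨Finset.mem_univ _, by linarith⟩) 2 (fR R p) (by norm_num)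
      (fun x hx => Aux493C.fR_supp R hR p x hx) (fun x y => by
        refine (Aux493C.fR_lip R hR p x y).trans (le_of_eq ?_)
        have e0 : (2 : ℝ) / (R / 2) = 4 / R := by
          field_simp
          norm_num
        rw [e0]) 1 (by
          intro x _ g
          exact Derivation.map_one_eq_zero _) (by
          intro σ _
          rw [map_one]
          exact zero_le_one)
    rw [W.one] at h
    have h2 : W.E (JS J (fR R p) 2 ^ 2 * 1) ≤ ∑ g, W.E (JS J (fR R p) g ^ 2 * 1) := by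
      refine Finset.single_le_sum (f := fun g => W.E (JS J (fR R p) g ^ 2 * 1)) (fun g _ => ?_)
        (Finset.mem_univ 2)
      simp only [mul_one]
      exact W.sq_nonneg _
    rw [mul_one] at h2
    linarith
  · have e1 : W.E (JS J (fR R p) 2 * X (p, 1)) = ∑ y, fR R p y * W.E (J y 2 * X (p, 1)) := by
      unfold JS
      rw [Finset.sum_mul, map_sum]
      refine Finset.sum_congr rfl fun y _ => ?_
      rw [smul_mul_assoc, map_smul, smul_eq_mul]
    have hloc : Loc ({p} : Set (Tor L)) (X (p, 1) : Alg (Tor L)) := by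
      intro x hx g
      exact alg1_Xne (fun h => hx (by rw [h]; exact Set.mem_singleton _)) g 1
    have e2 : ∀ y : Tor L, fR R p y * W.E (J y 2 * X (p, 1)) = W.E (b y 2 (X (p, 1))) := by
      intro y
      by_cases hy : tnorm (y - p) ≤ R / 4
      · rw [fR_near R hR p y hy, one_mul]
        refine (hG.ibp y (fun x hx => ?_) 2 _).symm
        unfold ball
        rw [Finset.mem_filter]
        refine ⟨Finset.mem_univ _, ?_⟩
        have := Geo3_tri x y p
        linarith
      · have h3 : b y 2 (X (p, 1)) = 0 := by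
          refine hG.loc y 2 _ _ hloc ?_
          intro x hx
          rw [Set.mem_singleton_iff] at hx
          rw [hx, tnorm_sub_comm]
          push Not at hy
          linarith
        rw [h3, map_zero]
        by_cases hy2 : fR R p y = 0
        · rw [hy2, zero_mul]
        · have h4 := Aux493C.fR_supp R hR p y hy2
          rw [← hG.ibp y (fun x hx => ?_) 2 _, h3, map_zero, mul_zero]
          unfold ball
          rw [Finset.mem_filter]
          refine ⟨Finset.mem_univ _, ?_⟩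
          have := Geo3_tri x y p
          linarith
    have e3 : ∑ y, b y 2 (X (p, 1)) = (X (p, 0) : Alg (Tor L)) := by
      have h5 := congrArg (fun d : Derivation ℝ (Alg (Tor L)) (Alg (Tor L)) =>
        d (X (p, 1))) (hG.sumb 2)
      have h6 : (∑ y, b y 2 : Derivation ℝ (Alg (Tor L)) (Alg (Tor L))) (X (p, 1)) =
          ∑ y, b y 2 (X (p, 1)) := by
        have : ∀ s : Finset (Tor L), (∑ y ∈ s, b y 2 : Derivation ℝ (Alg (Tor L))
            (Alg (Tor L))) (X (p, 1)) = ∑ y ∈ s, b y 2 (X (p, 1)) := by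
          intro s
          induction s using Finset.induction_on with
          | empty => simp
          | insert a s ha ih =>
            rw [Finset.sum_insert ha, Finset.sum_insert ha, Derivation.add_apply, ih]
        exact this _
      rw [← h6]
      refine h5.trans ?_
      exact alg1_R2 p 2
    rw [e1, Finset.sum_congr rfl fun y _ => e2 y, ← map_sum, e3]
  · intro σ σ' hσ
    have hz : ∀ τ : Tor L × Fin 3 → ℝ, eval τ (JS J (fR R p) 2) =
        ∑ y, (fR R p y - 1) * eval τ (J y 2) := by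
      intro τ
      have h7 : ∑ y, eval τ (J y 2) = 0 := by
        rw [← map_sum, hG.sumJ 2, map_zero]
      rw [eval_JS]
      simp only [sub_mul, one_mul]
      rw [Finset.sum_sub_distrib, h7, sub_zero]
    rw [hz, hz]
    refine Finset.sum_congr rfl fun y _ => ?_
    by_cases hy : tnorm (y - p) ≤ R / 4
    · rw [fR_near R hR p y hy, sub_self, zero_mul, zero_mul]
    · push Not at hy
      congr 1
      refine eval_sup (hG.sup y 2) fun x hx g => hσ x ?_ g
      have h8 := Geo3_tri y x p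
      have h9 : tnorm (x - y) ≤ ρ' := hx
      rw [tnorm_sub_comm] at h9
      linarith

theorem main_of (h0 : S_zero) (h1 : S_mom) : S_main := by
  obtain ⟨C0, hC0, h0⟩ := h0
  obtain ⟨C1, hC1, h1⟩ := h1
  intro ε hε
  set δ : ℝ := ε / 4 with hδ
  have hδ0 : 0 < δ := by positivity
  set c : ℝ := δ / (1 + C1 * δ) with hc
  have hc0 : 0 < c := by positivity
  have hlog1 : 0 < Real.log 400 := Real.log_pos (by norm_num)
  have hlog2 : 0 < Real.log 4000000 := Real.log_pos (by norm_num)
  refine ⟨Real.log 4000000 + Real.log 400 * (C0 / c), by positivity, ?_⟩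
  intro K hK R hR L _ hL ι _ G β ρ hN hρ hρR p W
  set n : ℕ := ⌈C0 * K / c⌉₊ with hn
  have hn1 : C0 * K / c ≤ n := Nat.le_ceil _
  have hn2 : (n : ℝ) < C0 * K / c + 1 := Nat.ceil_lt_add_one (by positivity)
  have hR1 : (10000 : ℝ) * 400 ^ n ≤ R := by
    refine le_trans ?_ hR
    have e1 : (10000 : ℝ) * 400 ^ n = 10000 * Real.exp (Real.log 400 * n) := by
      rw [mul_comm (Real.log 400), Real.exp_nat_mul, Real.exp_log (by norm_num)]
    have e2 : Real.exp (Real.log 400 * n) ≤ 400 * Real.exp (Real.log 400 * (C0 / c) * K) := by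
      have e3 : (400 : ℝ) * Real.exp (Real.log 400 * (C0 / c) * K) =
          Real.exp (Real.log 400 + Real.log 400 * (C0 / c) * K) := by
        rw [Real.exp_add, Real.exp_log (by norm_num)]
      rw [e3]
      refine Real.exp_le_exp.2 ?_
      have e4 : Real.log 400 + Real.log 400 * (C0 / c) * K =
          Real.log 400 * (C0 * K / c + 1) := by ring
      rw [e4]
      exact mul_le_mul_of_nonneg_left hn2.le hlog1.le
    have e5 : (4000000 : ℝ) * Real.exp (Real.log 400 * (C0 / c) * K) ≤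
        Real.exp ((Real.log 4000000 + Real.log 400 * (C0 / c)) * (1 + K)) := by
      have e6 : (4000000 : ℝ) * Real.exp (Real.log 400 * (C0 / c) * K) =
          Real.exp (Real.log 4000000 + Real.log 400 * (C0 / c) * K) := by
        rw [Real.exp_add, Real.exp_log (by norm_num)]
      rw [e6]
      refine Real.exp_le_exp.2 ?_
      have e7 : 0 ≤ Real.log 4000000 * K := by positivity
      have e8 : 0 ≤ Real.log 400 * (C0 / c) := by positivity
      nlinarith
    rw [e1]
    nlinarith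
  have hpow : (1 : ℝ) ≤ 400 ^ n := one_le_pow₀ (by norm_num)
  have hR0 : 0 < R := by linarith
  have hsq : 100 * 20 ^ n ≤ √R := by
    refine Real.le_sqrt_of_sq_le ?_
    have e9 : ((100 : ℝ) * 20 ^ n) ^ 2 = 10000 * 400 ^ n := by
      rw [mul_pow, ← pow_mul, mul_comm n 2, pow_mul]
      norm_num
    rw [e9]
    exact hR1
  have hr : 20 ^ n * (2 * ρ) ≤ R / 50 := by
    have e10 : √R * √R = R := Real.mul_self_sqrt hR0.le
    have e11 : (0 : ℝ) < 20 ^ n := by positivity
    have e12 : (20 : ℝ) ^ n * (2 * ρ) ≤ 20 ^ n * (2 * √R) :=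
      mul_le_mul_of_nonneg_left (by linarith) e11.le
    have e13 : (100 * 20 ^ n) * √R ≤ √R * √R :=
      mul_le_mul_of_nonneg_right hsq (Real.sqrt_nonneg _)
    linarith
  obtain ⟨J, b, ρ', l', B', hG, g1, g2, g3, g4, g5⟩ := levels hC0 hC1 hδ0 hc hK hρ hL W
    (h0 L G β ρ K hN hρ hK _ W) (fun J b ρ l B r => h1 L G β _ W J b ρ l B r) n (by linarith)
  have hB : B' ≤ δ := by
    refine g5.trans (max_le le_rfl ?_)
    have e14 : C0 * K ≤ n * c := by
      rwa [div_le_iff₀ hc0] at hn1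
    linarith
  exact main_level hδ hR0 p W hG (by linarith) (by linarith) hB

end Pool.Agent.H100.RG
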